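import Pool.Agent.Helper24.KK.GoalsB

/-! Packets KK-OPI and KK-STP. -/

set_option autoImplicit false
set_option linter.unusedSectionVars false

namespace Pool.Agent.Helper61.KK

open Finset MeasureTheory Filter Matrix
open Pool.Agent.Helper24.KK
open Pool.Agent.Helper15.An (exp_smul_spec affine_spec golden_thompson trace_mul_mono
  exp_posSemidef)
open scoped ComplexOrder

theorem opi : OPI := by
  intro d _ _ H hH p δ θ hp0 hp1 hθ hθδ hev
  set U : Matrix d d ℂ := (hH.eigenvectorUnitary : Matrix d d ℂ) with hU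
  set a : ℝ := Real.exp (p * (θ ^ 2 * δ ^ 2)) with ha
  have h1 : a • (1 : Matrix d d ℂ) = U * diagonal (fun _ => ((a : ℝ) : ℂ)) * Uᴴ := by
    have := affine_spec hH a 0
    simpa using this
  have key : a • (1 : Matrix d d ℂ) -
      (p • NormedSpace.exp ((θ * (1 - p)) • H) + (1 - p) • NormedSpace.exp ((-(θ * p)) • H)) =
      U * diagonal (fun i => ((a - (p * Real.exp (θ * (1 - p) * hH.eigenvalues i) +
        (1 - p) * Real.exp (-(θ * p) * hH.eigenvalues i)) : ℝ) : ℂ)) * Uᴴ := by
    rw [h1, exp_smul_spec hH, exp_smul_spec hH, ← hU]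
    have h2 : diagonal (fun i => ((a - (p * Real.exp (θ * (1 - p) * hH.eigenvalues i) +
        (1 - p) * Real.exp (-(θ * p) * hH.eigenvalues i)) : ℝ) : ℂ)) =
        diagonal (fun _ => ((a : ℝ) : ℂ)) -
          (p • diagonal (fun i => ((Real.exp (θ * (1 - p) * hH.eigenvalues i) : ℝ) : ℂ)) +
          (1 - p) • diagonal (fun i => ((Real.exp (-(θ * p) * hH.eigenvalues i) : ℝ) : ℂ))) := by
      ext i j
      by_cases hij : i = j
      · subst hij
        simp
      · simp [hij]
    rw [h2]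
    simp only [Matrix.mul_sub, Matrix.sub_mul, Matrix.mul_add, Matrix.add_mul, Matrix.mul_smul,
      Matrix.smul_mul]
  rw [key]
  refine PosSemidef.mul_mul_conjTranspose_same (PosSemidef.diagonal ?_) _
  intro i
  simp only [Pi.zero_apply]
  have hz2 : |hH.eigenvalues i| ≤ δ := hev i
  have hz : |θ * hH.eigenvalues i| ≤ 1 := by
    rw [abs_mul, abs_of_nonneg hθ]
    exact (mul_le_mul_of_nonneg_left hz2 hθ).trans hθδ
  have h3 := Pool.Agent.Helper49.RS.scalar_ineq p (θ * hH.eigenvalues i) hp0 hp1 hz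
  have h4 : Real.exp (p * (θ * hH.eigenvalues i) ^ 2) ≤ a := by
    rw [ha]
    apply Real.exp_le_exp.2
    apply mul_le_mul_of_nonneg_left _ hp0
    rw [mul_pow]
    apply mul_le_mul_of_nonneg_left _ (sq_nonneg θ)
    exact sq_le_sq' (by linarith [(abs_le.1 hz2).1]) (abs_le.1 hz2).2
  have h5 : θ * (1 - p) * hH.eigenvalues i = (1 - p) * (θ * hH.eigenvalues i) := by ring
  have h6 : -(θ * p) * hH.eigenvalues i = -p * (θ * hH.eigenvalues i) := by ring
  rw [h5, h6]
  have h7 : 0 ≤ a - (p * Real.exp ((1 - p) * (θ * hH.eigenvalues i)) +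
      (1 - p) * Real.exp (-p * (θ * hH.eigenvalues i))) := by linarith
  exact_mod_cast h7

end Pool.Agent.Helper61.KK
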