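import Pool.Agent.Helper24.KK.GoalsB

/-! Packet KK-STP. -/

set_option autoImplicit false
set_option linter.unusedSectionVars false

namespace Pool.Agent.Helper61.KK

open Finset MeasureTheory Filter Matrix
open Pool.Agent.Helper24.KK
open Pool.Agent.Helper15.An (golden_thompson trace_mul_mono exp_posSemidef)
open scoped ComplexOrder

theorem stp (hOPI : OPI) : STP := by
  intro d _ _ S H hS hH p δ θ hp0 hp1 hθ hθδ hev
  have hherm : ∀ c : ℝ, (c • H).IsHermitian := by
    intro c
    unfold Matrix.IsHermitian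
    rw [conjTranspose_smul, hH.eq]
    simp
  have g1 := golden_thompson hS (hherm (θ * (1 - p)))
  have g2 := golden_thompson hS (hherm (-(θ * p)))
  have h1 := trace_mul_mono (exp_posSemidef hS) (hOPI d H hH p δ θ hp0 hp1 hθ hθδ hev)
  have h2 : (trace (NormedSpace.exp S * (p • NormedSpace.exp ((θ * (1 - p)) • H) +
      (1 - p) • NormedSpace.exp ((-(θ * p)) • H)))).re =
      p * (trace (NormedSpace.exp S * NormedSpace.exp ((θ * (1 - p)) • H))).re +
      (1 - p) * (trace (NormedSpace.exp S * NormedSpace.exp ((-(θ * p)) • H))).re := by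
    rw [Matrix.mul_add, Matrix.mul_smul, Matrix.mul_smul, trace_add, trace_smul, trace_smul]
    simp
  have h3 : (trace (NormedSpace.exp S *
      (Real.exp (p * (θ ^ 2 * δ ^ 2)) • (1 : Matrix d d ℂ)))).re =
      Real.exp (p * (θ ^ 2 * δ ^ 2)) * (trace (NormedSpace.exp S)).re := by
    rw [Matrix.mul_smul, Matrix.mul_one, trace_smul, Complex.smul_re, smul_eq_mul]
  rw [h2, h3] at h1
  have g1' := mul_le_mul_of_nonneg_left g1 hp0
  have g2' := mul_le_mul_of_nonneg_left g2 (by linarith : 0 ≤ 1 - p)
  linarith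

end Pool.Agent.Helper61.KK
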